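import Mathlib

set_option autoImplicit false

/-!
For `1 ≤ p < ∞`, `p` not an even integer, the space `ℓ_p` has no `C^∞` blid map (bounded map which
is the identity near `0`).
-/

open Filter Topology Set
open scoped ENNReal NNReal

namespace Pool.Agent.Results.MP_94b2f9_an.NoBlidLp

universe u v

/-! ### Definitions -/

/-- `X` has a `C^q` blid map: a bounded map `H : X → X` of class `C^q` which coincides with the
identity on a neighbourhood of `0`. -/
def HasBlid (q : WithTop ℕ∞) (X : Type u) [NormedAddCommGroup X] [NormedSpace ℝ X] : Prop :=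
  ∃ H : X → X, ContDiff ℝ q H ∧ (∃ B : ℝ, ∀ x, ‖H x‖ ≤ B) ∧ ∀ᶠ x in 𝓝 (0 : X), H x = x

/-! ### The greedy argument -/

lemma greedy {E : Type u} [MetricSpace E] [CompleteSpace E] (D : Set E) (R : E → E → Prop)
    (hrefl : ∀ a, R a a) (htrans : ∀ {a b c}, R a b → R b c → R a c) (g : E → ℝ) {B p : ℝ}
    (hp : 0 < p) (hB : ∀ y ∈ D, g y ≤ B)
    (hdist : ∀ y ∈ D, ∀ y' ∈ D, R y y' → dist y y' ^ p ≤ g y' - g y)
    (hstep : ∀ x : E, ∃ δ > 0, ∃ τ > 0, ∀ y ∈ D, dist y x < δ → ∃ y' ∈ D, R y y' ∧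
      g y + τ ≤ g y') (y₀ : E) (hy₀ : y₀ ∈ D) : False := by
  classical
  let S : E → ℝ := fun y => sSup (g '' {y' | y' ∈ D ∧ R y y'})
  have hbdd : ∀ y, BddAbove (g '' {y' | y' ∈ D ∧ R y y'}) := fun y =>
    ⟨B, by rintro _ ⟨z, hz, rfl⟩; exact hB z hz.1⟩
  have hnext : ∀ y : D, ∃ y' : D, R y y' ∧ (g y + S y) / 2 ≤ g y' := by
    rintro ⟨y, hy⟩
    have hgS : g y ≤ S y := le_csSup (hbdd y) ⟨y, ⟨hy, hrefl y⟩, rfl⟩
    rcases eq_or_lt_of_le hgS with h | h
    · exact ⟨⟨y, hy⟩, hrefl y, by simp only; linarith⟩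
    · have h1 : (g y + S y) / 2 < S y := by linarith
      have hne : (g '' {y' | y' ∈ D ∧ R y y'}).Nonempty := ⟨g y, y, ⟨hy, hrefl y⟩, rfl⟩
      obtain ⟨_, ⟨z, hz, rfl⟩, h2⟩ := exists_lt_of_lt_csSup hne h1
      exact ⟨⟨z, hz.1⟩, hz.2, h2.le⟩
  choose next hn1 hn2 using hnext
  let x : ℕ → D := fun n => next^[n] ⟨y₀, hy₀⟩
  have hx : ∀ n, x (n + 1) = next (x n) := fun n => Function.iterate_succ_apply' next n _
  have hR : ∀ n k, R (x n) (x (n + k)) := by
    intro n k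
    induction k with
    | zero => exact hrefl _
    | succ k ih =>
      refine htrans ih ?_
      rw [← add_assoc, hx]
      exact hn1 _
  have hR' : ∀ n m, n ≤ m → R (x n) (x m) := by
    intro n m h
    have := hR n (m - n)
    rwa [Nat.add_sub_cancel' h] at this
  have hmono : Monotone fun n => g (x n) := by
    intro n m h
    have h1 := hdist _ (x n).2 _ (x m).2 (hR' n m h)
    have h2 : 0 ≤ dist (x n : E) (x m : E) ^ p := by positivity
    simp only
    linarith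
  obtain ⟨s, hs⟩ : ∃ s, Tendsto (fun n => g (x n)) atTop (𝓝 s) :=
    ⟨_, tendsto_atTop_ciSup hmono ⟨B, by rintro _ ⟨n, rfl⟩; exact hB _ (x n).2⟩⟩
  have hcauchy : CauchySeq fun n => (x n : E) := by
    refine Metric.cauchySeq_iff'.mpr fun δ hδ => ?_
    obtain ⟨N, hN⟩ := (Metric.cauchySeq_iff'.mp hs.cauchySeq) (δ ^ p) (by positivity)
    refine ⟨N, fun n hn => ?_⟩
    have h1 := hdist _ (x N).2 _ (x n).2 (hR' N n hn)
    have h2 := hN n hn
    rw [Real.dist_eq] at h2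
    have h3 := (le_abs_self _).trans_lt h2
    have h4 : dist (x N : E) (x n) ^ p < δ ^ p := lt_of_le_of_lt h1 h3
    rw [dist_comm]
    exact lt_of_not_ge fun h => absurd h4 (not_lt.mpr (Real.rpow_le_rpow hδ.le h hp.le))
  obtain ⟨y, hy⟩ := cauchySeq_tendsto_of_complete hcauchy
  obtain ⟨δ, hδ, τ, hτ, hst⟩ := hstep y
  have e1 : ∀ᶠ n in atTop, dist (x n : E) y < δ := (tendsto_iff_dist_tendsto_zero.mp hy).eventually_lt_const hδ
  have e2 : ∀ᶠ n in atTop, g (x (n + 1)) - g (x n) < τ / 2 := by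
    have h1 : Tendsto (fun n => g (x (n + 1)) - g (x n)) atTop (𝓝 (s - s)) :=
      (hs.comp (tendsto_add_atTop_nat 1)).sub hs
    rw [sub_self] at h1
    exact h1.eventually_lt_const (by positivity)
  obtain ⟨n, h1, h2⟩ := (e1.and e2).exists
  obtain ⟨y', hy'1, hy'2, hy'3⟩ := hst _ (x n).2 h1
  have h3 : g y' ≤ S (x n) := le_csSup (hbdd _) ⟨y', ⟨hy'1, hy'2⟩, rfl⟩
  have h4 := hn2 (x n)
  rw [hx] at h2
  linarith

/-! ### Taylor's formula -/

section taylor

variable {X : Type u} {Y : Type v} [NormedAddCommGroup X] [NormedSpace ℝ X] [NormedAddCommGroup Y]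
  [NormedSpace ℝ Y] [CompleteSpace Y]

lemma taylor_bound {H : X → Y} {N : ℕ} (hH : ContDiff ℝ (N + 1) H) {y h : X} {C : ℝ}
    (hC : ∀ t ∈ Icc (0 : ℝ) 1, ‖iteratedFDeriv ℝ (N + 1) H (y + t • h)‖ ≤ C) :
    ‖H (y + h) - ∑ k ∈ Finset.range (N + 1), ((k.factorial : ℝ))⁻¹ •
      iteratedFDeriv ℝ k H y (fun _ => h)‖ ≤ C * ‖h‖ ^ (N + 1) := by
  rw [map_add_eq_sum_add_integral_iteratedFDeriv (n := N) (fun t _ => hH.contDiffAt),
    add_sub_cancel_left]
  have hC0 : 0 ≤ C := (norm_nonneg _).trans (hC 0 (by simp))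
  have h1 : ‖∫ t in (0 : ℝ)..1, (1 - t) ^ N • iteratedFDeriv ℝ (N + 1) H (y + t • h)
      (fun _ => h)‖ ≤ C * ‖h‖ ^ (N + 1) * |(1 : ℝ) - 0| := by
    refine intervalIntegral.norm_integral_le_of_norm_le_const fun t ht => ?_
    rw [uIoc_of_le zero_le_one] at ht
    rw [norm_smul]
    have h2 : ‖(1 - t) ^ N‖ ≤ 1 := by
      rw [norm_pow, Real.norm_eq_abs, abs_of_nonneg (by linarith [ht.2])]
      exact pow_le_one₀ (by linarith [ht.2]) (by linarith [ht.1])
    have h3 : ‖iteratedFDeriv ℝ (N + 1) H (y + t • h) (fun _ => h)‖ ≤ C * ‖h‖ ^ (N + 1) := by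
      refine (ContinuousMultilinearMap.le_opNorm _ _).trans ?_
      rw [Finset.prod_const, Finset.card_univ, Fintype.card_fin]
      exact mul_le_mul_of_nonneg_right (hC t ⟨ht.1.le, ht.2⟩) (by positivity)
    calc ‖(1 - t) ^ N‖ * ‖iteratedFDeriv ℝ (N + 1) H (y + t • h) (fun _ => h)‖
        ≤ 1 * (C * ‖h‖ ^ (N + 1)) := mul_le_mul h2 h3 (norm_nonneg _) zero_le_one
      _ = _ := one_mul _
  rw [sub_zero, abs_one, mul_one] at h1
  rw [norm_smul]
  have h4 : ‖((N.factorial : ℝ))⁻¹‖ ≤ 1 := by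
    rw [norm_inv, Real.norm_natCast]
    exact inv_le_one_of_one_le₀ (by exact_mod_cast N.factorial_pos)
  calc _ ≤ 1 * (C * ‖h‖ ^ (N + 1)) := mul_le_mul h4 h1 (norm_nonneg _) zero_le_one
    _ = _ := one_mul _

omit [CompleteSpace Y] in
lemma local_bound {H : X → Y} {N : ℕ} (hH : ContDiff ℝ (N + 1) H) (x : X) :
    ∃ δ > 0, ∃ C > 0, (∀ y ∈ Metric.ball x δ, ‖iteratedFDeriv ℝ (N + 1) H y‖ ≤ C) ∧
      ∀ y ∈ Metric.ball x δ, ∀ z ∈ Metric.ball x δ,
        ‖iteratedFDeriv ℝ N H y - iteratedFDeriv ℝ N H z‖ ≤ C * ‖y - z‖ := by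
  have h1 : Continuous (iteratedFDeriv ℝ (N + 1) H) :=
    hH.continuous_iteratedFDeriv (m := N + 1) (by norm_cast)
  have h2 : ContDiff ℝ 1 (iteratedFDeriv ℝ N H) :=
    hH.iteratedFDeriv_right (by rw [add_comm])
  obtain ⟨K, t, ht, hK⟩ := h2.contDiffAt.exists_lipschitzOnWith (x := x)
  obtain ⟨δ₁, hδ₁, h3⟩ := Metric.mem_nhds_iff.mp ht
  have h4 : ∀ᶠ y in 𝓝 x, ‖iteratedFDeriv ℝ (N + 1) H y‖ < ‖iteratedFDeriv ℝ (N + 1) H x‖ + 1 :=
    h1.norm.continuousAt.eventually_lt_const (by linarith)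
  obtain ⟨δ₂, hδ₂, h5⟩ := Metric.eventually_nhds_iff_ball.mp h4
  refine ⟨min δ₁ δ₂, lt_min hδ₁ hδ₂, max K (‖iteratedFDeriv ℝ (N + 1) H x‖ + 1),
    lt_max_of_lt_right (by positivity), fun y hy => ?_, fun y hy z hz => ?_⟩
  · exact (h5 y (Metric.ball_subset_ball (min_le_right _ _) hy)).le.trans (le_max_right _ _)
  · have h6 := hK.dist_le_mul _ (h3 (Metric.ball_subset_ball (min_le_left _ _) hy)) _
      (h3 (Metric.ball_subset_ball (min_le_left _ _) hz))
    rw [dist_eq_norm, dist_eq_norm] at h6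
    exact h6.trans (mul_le_mul_of_nonneg_right (le_max_left _ _) (norm_nonneg _))

end taylor

/-! ### Multilinear forms on `ℓ_p` -/

section multi

variable {p : ℝ≥0∞} [Fact (1 ≤ p)]

/-- the space `ℓ_p` -/
abbrev Lp (p : ℝ≥0∞) [Fact (1 ≤ p)] : Type := lp (fun _ : ℕ => ℝ) p

/-- the unit vectors -/
noncomputable def e (p : ℝ≥0∞) [Fact (1 ≤ p)] (n : ℕ) : Lp p := lp.single p n (1 : ℝ)

lemma e_self (n : ℕ) : e p n n = 1 := by
  unfold e
  exact lp.single_apply_self _ _ _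

lemma e_ne {m n : ℕ} (h : m ≠ n) : e p n m = 0 := by
  unfold e
  exact lp.single_apply_ne _ _ _ h

lemma norm_e (n : ℕ) : ‖e p n‖ = 1 := by
  unfold e
  rw [lp.norm_single (lt_of_lt_of_le zero_lt_one (Fact.out : 1 ≤ p))]
  simp

lemma coe_add (x y : Lp p) (i : ℕ) : (x + y) i = x i + y i := rfl

lemma coe_sub (x y : Lp p) (i : ℕ) : (x - y) i = x i - y i := rfl

lemma coe_smul (s : ℝ) (y : Lp p) (i : ℕ) : (s • y) i = s * y i := rfl

lemma norm_sum_signs (hp : 0 < p.toReal) (F : Finset ℕ) (s : ℕ → ℝ) (hs : ∀ i, |s i| = 1) :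
    ‖∑ i ∈ F, s i • e p i‖ = (F.card : ℝ) ^ (1 / p.toReal) := by
  have h1 := lp.norm_sum_single (p := p) (E := fun _ : ℕ => ℝ) hp s F
  have h2 : ∑ i ∈ F, s i • e p i = ∑ i ∈ F, lp.single p i (s i) := by
    refine Finset.sum_congr rfl fun i _ => ?_
    unfold e
    rw [← lp.single_smul, smul_eq_mul, mul_one]
  have h3 : ∑ i ∈ F, ‖s i‖ ^ p.toReal = F.card := by
    rw [Finset.sum_congr rfl (g := fun _ => (1 : ℝ))]
    · simp
    · intro i _
      rw [Real.norm_eq_abs, hs, Real.one_rpow]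
  rw [h3] at h1
  rw [h2, ← h1, ← Real.rpow_mul (norm_nonneg _), mul_one_div_cancel hp.ne', Real.rpow_one]

lemma exists_signs (F : Finset ℕ) (M : ℕ → ℕ → ℝ) :
    ∃ s : ℕ → ℝ, (∀ i, |s i| = 1) ∧ ∑ k ∈ F, M k k ≤ ∑ k ∈ F, ∑ i ∈ F, s i * s k * M i k := by
  classical
  induction F using Finset.induction_on with
  | empty => exact ⟨fun _ => 1, by simp, by simp⟩
  | insert a F ha ih =>
    obtain ⟨s, hs, hF⟩ := ih
    set c : ℝ := ∑ k ∈ F, s k * (M a k + M k a) with hc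
    obtain ⟨t, ht, htc⟩ : ∃ t : ℝ, |t| = 1 ∧ 0 ≤ t * c := by
      rcases le_total 0 c with h | h
      · exact ⟨1, by simp, by linarith⟩
      · exact ⟨-1, by simp, by linarith⟩
    refine ⟨Function.update s a t, ?_, ?_⟩
    · intro i
      by_cases h : i = a
      · subst h; rw [Function.update_self]; exact ht
      · rw [Function.update_of_ne h]; exact hs i
    · have hne : ∀ k ∈ F, k ≠ a := fun k hk h => ha (h ▸ hk)
      rw [Finset.sum_insert ha, Finset.sum_insert ha, Finset.sum_insert ha]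
      have e1 : ∑ i ∈ F, Function.update s a t i * Function.update s a t a * M i a =
          ∑ i ∈ F, s i * t * M i a := by
        refine Finset.sum_congr rfl fun i hi => ?_
        rw [Function.update_self, Function.update_of_ne (hne i hi)]
      have e2 : ∑ k ∈ F, ∑ i ∈ insert a F,
          Function.update s a t i * Function.update s a t k * M i k =
          ∑ k ∈ F, t * s k * M a k + ∑ k ∈ F, ∑ i ∈ F, s i * s k * M i k := by
        rw [← Finset.sum_add_distrib]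
        refine Finset.sum_congr rfl fun k hk => ?_
        rw [Finset.sum_insert ha, Function.update_self, Function.update_of_ne (hne k hk)]
        congr 1
        refine Finset.sum_congr rfl fun i hi => ?_
        rw [Function.update_of_ne (hne i hi)]
      rw [e1, e2, Function.update_self]
      have e3 : t * t = 1 := by
        have := abs_mul_abs_self t
        rw [ht] at this
        linarith
      have e4 : t * c = ∑ i ∈ F, s i * t * M i a + ∑ k ∈ F, t * s k * M a k := by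
        rw [hc, Finset.mul_sum, ← Finset.sum_add_distrib]
        refine Finset.sum_congr rfl fun k _ => ?_
        ring
      rw [e3]
      linarith

lemma sum_diag_le (hp : 0 < p.toReal) (j : ℕ) :
    ∀ (A : ContinuousMultilinearMap ℝ (fun _ : Fin (j + 1) => Lp p) ℝ) (F : Finset ℕ) (c : ℕ → ℝ),
      (∀ i, |c i| = 1) → ∑ k ∈ F, c k * A (fun _ => e p k) ≤
        ‖A‖ * ((F.card : ℝ) ^ (1 / p.toReal)) ^ (j + 1) := by
  induction j with
  | zero =>
    intro A F c hc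
    have h1 : ∀ x : Lp p, A (fun _ => x) = A.curryLeft x (fun i => Fin.elim0 i) := by
      intro x
      rw [ContinuousMultilinearMap.curryLeft_apply]
      congr 1
      funext i
      exact Fin.cases rfl (fun i => Fin.elim0 i) i
    have h2 : ∑ k ∈ F, c k * A (fun _ => e p k) =
        A.curryLeft (∑ k ∈ F, c k • e p k) (fun i => Fin.elim0 i) := by
      rw [map_sum, _root_.sum_apply]
      refine Finset.sum_congr rfl fun k _ => ?_
      rw [h1, map_smul, _root_.smul_apply, smul_eq_mul]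
    have h3 : ((F.card : ℝ) ^ (1 / p.toReal)) ^ (0 + 1) = ‖∑ k ∈ F, c k • e p k‖ := by
      rw [norm_sum_signs hp F c hc]
      exact pow_one _
    rw [h2, h3]
    refine (le_abs_self _).trans ?_
    rw [← Real.norm_eq_abs]
    refine (ContinuousMultilinearMap.le_opNorm _ _).trans ?_
    simp only [Finset.univ_eq_empty, Finset.prod_empty, mul_one]
    refine (A.curryLeft.le_opNorm _).trans (le_of_eq ?_)
    rw [ContinuousMultilinearMap.curryLeft_norm]
  | succ j ih =>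
    intro A F c hc
    obtain ⟨s, hs, hM⟩ := exists_signs F fun i k => c k * A.curryLeft (e p i) (fun _ => e p k)
    have h1 : ∀ x : Lp p, A (fun _ => x) = A.curryLeft x (fun _ => x) := by
      intro x
      rw [ContinuousMultilinearMap.curryLeft_apply]
      congr 1
      funext i
      refine Fin.cases rfl (fun i => rfl) i
    have h2 : ∑ k ∈ F, ∑ i ∈ F, s i * s k * (c k * A.curryLeft (e p i) (fun _ => e p k)) =
        ∑ k ∈ F, (s k * c k) * A.curryLeft (∑ i ∈ F, s i • e p i) (fun _ => e p k) := by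
      refine Finset.sum_congr rfl fun k _ => ?_
      rw [map_sum, _root_.sum_apply, Finset.mul_sum]
      refine Finset.sum_congr rfl fun i _ => ?_
      rw [map_smul, _root_.smul_apply, smul_eq_mul]
      ring
    have h3 := ih (A.curryLeft (∑ i ∈ F, s i • e p i)) F (fun k => s k * c k) (fun k => by
      rw [abs_mul, hs, hc, one_mul])
    have h4 : ‖A.curryLeft (∑ i ∈ F, s i • e p i)‖ ≤ ‖A‖ * (F.card : ℝ) ^ (1 / p.toReal) := by
      refine (A.curryLeft.le_opNorm _).trans (le_of_eq ?_)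
      rw [ContinuousMultilinearMap.curryLeft_norm, norm_sum_signs hp F s hs]
    calc ∑ k ∈ F, c k * A (fun _ => e p k)
        = ∑ k ∈ F, c k * A.curryLeft (e p k) (fun _ => e p k) := by simp only [h1]
      _ ≤ ∑ k ∈ F, ∑ i ∈ F, s i * s k * (c k * A.curryLeft (e p i) (fun _ => e p k)) := hM
      _ = ∑ k ∈ F, (s k * c k) * A.curryLeft (∑ i ∈ F, s i • e p i) (fun _ => e p k) := h2
      _ ≤ ‖A.curryLeft (∑ i ∈ F, s i • e p i)‖ * ((F.card : ℝ) ^ (1 / p.toReal)) ^ (j + 1) := h3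
      _ ≤ (‖A‖ * (F.card : ℝ) ^ (1 / p.toReal)) * ((F.card : ℝ) ^ (1 / p.toReal)) ^ (j + 1) :=
          mul_le_mul_of_nonneg_right h4 (by positivity)
      _ = _ := by ring

/-- Forms of degree `< p` vanish along the unit vectors. -/
lemma tendsto_form {j : ℕ} (hj : ((j + 1 : ℕ) : ℝ) < p.toReal)
    (A : ContinuousMultilinearMap ℝ (fun _ : Fin (j + 1) => Lp p) ℝ) :
    Tendsto (fun k => A (fun _ => e p k)) atTop (𝓝 0) := by
  have hp : 0 < p.toReal := lt_of_le_of_lt (Nat.cast_nonneg _) hj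
  rw [tendsto_zero_iff_abs_tendsto_zero, Metric.tendsto_atTop']
  intro η hη
  by_contra hcon
  push Not at hcon
  -- infinitely many `k` with large values
  have hinf : {k : ℕ | η ≤ |A (fun _ => e p k)|}.Infinite := by
    intro hfin
    obtain ⟨N, hN⟩ := hfin.bddAbove
    obtain ⟨k, hk1, hk2⟩ := hcon N
    simp only [Function.comp, dist_zero_right, Real.norm_eq_abs, abs_abs] at hk2
    exact absurd (hN hk2) (not_le.mpr hk1)
  have hbound : ∀ K : ℕ, η * K ≤ ‖A‖ * ((K : ℝ) ^ (1 / p.toReal)) ^ (j + 1) := by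
    intro K
    obtain ⟨F, hF1, hF2⟩ := hinf.exists_subset_card_eq K
    set c : ℕ → ℝ := fun k => if 0 ≤ A (fun _ => e p k) then 1 else -1 with hc
    have h1 := sum_diag_le hp j A F c (fun i => by simp only [hc]; split_ifs <;> simp)
    rw [hF2] at h1
    refine le_trans ?_ h1
    have h2 : ∀ k ∈ F, η ≤ c k * A (fun _ => e p k) := by
      intro k hk
      have h3 : c k * A (fun _ => e p k) = |A (fun _ => e p k)| := by
        simp only [hc]
        split_ifs with h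
        · rw [one_mul, abs_of_nonneg h]
        · rw [abs_of_neg (not_le.mp h)]; ring
      rw [h3]
      exact hF1 hk
    have h4 := Finset.card_nsmul_le_sum F _ η h2
    rw [hF2, nsmul_eq_mul] at h4
    linarith
  have h5 : Tendsto (fun K : ℕ => (K : ℝ) ^ (1 - (j + 1 : ℕ) / p.toReal)) atTop atTop :=
    (tendsto_rpow_atTop (by rw [sub_pos, div_lt_one hp]; exact hj)).comp
      tendsto_natCast_atTop_atTop
  obtain ⟨K, hK1, hK2⟩ := ((h5.eventually_gt_atTop (‖A‖ / η)).and (eventually_gt_atTop 0)).exists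
  have h6 := hbound K
  have hK0 : (0 : ℝ) < K := by exact_mod_cast hK2
  have h7 : ((K : ℝ) ^ (1 / p.toReal)) ^ (j + 1) = (K : ℝ) ^ (((j + 1 : ℕ) : ℝ) / p.toReal) := by
    rw [← Real.rpow_natCast, ← Real.rpow_mul hK0.le]
    congr 1
    ring
  have h8 : (K : ℝ) = (K : ℝ) ^ (1 - ((j + 1 : ℕ) : ℝ) / p.toReal) *
      (K : ℝ) ^ (((j + 1 : ℕ) : ℝ) / p.toReal) := by
    rw [← Real.rpow_add hK0, sub_add_cancel, Real.rpow_one]
  rw [h7] at h6
  rw [div_lt_iff₀ hη] at hK1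
  have h9 : 0 < (K : ℝ) ^ (((j + 1 : ℕ) : ℝ) / p.toReal) := Real.rpow_pos_of_pos hK0 _
  have h10 := mul_lt_mul_of_pos_right hK1 h9
  have h11 : η * (K : ℝ) = (K : ℝ) ^ (1 - ((j + 1 : ℕ) : ℝ) / p.toReal) * η *
      (K : ℝ) ^ (((j + 1 : ℕ) : ℝ) / p.toReal) := by
    conv_lhs => rw [h8]
    ring
  linarith

/-! ### Limits along an ultrafilter -/

/-- a fixed free ultrafilter on `ℕ`, as a filter -/
noncomputable def uf : Filter ℕ := (Filter.hyperfilter ℕ : Filter ℕ)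

instance : uf.NeBot := by
  unfold uf
  infer_instance

lemma uf_le : uf ≤ atTop := by
  unfold uf
  rw [← Nat.cofinite_eq_atTop]
  exact Filter.hyperfilter_le_cofinite

lemma exists_lim {a : ℕ → ℝ} {C : ℝ} (h : ∀ n, |a n| ≤ C) : ∃ l, Tendsto a uf (𝓝 l) := by
  obtain ⟨l, -, hl⟩ := (isCompact_Icc (a := -C) (b := C)).ultrafilter_le_nhds
    ((Filter.hyperfilter ℕ).map a) (by
      rw [Ultrafilter.coe_map, le_principal_iff, mem_map]
      exact univ_mem' fun n => abs_le.mp (h n))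
  exact ⟨l, hl⟩

variable {Y : Type v} [NormedAddCommGroup Y] [NormedSpace ℝ Y]

lemma form_smul {j : ℕ} (A : ContinuousMultilinearMap ℝ (fun _ : Fin j => Lp p) Y) (s : ℝ)
    (x : Lp p) : A (fun _ => s • x) = s ^ j • A (fun _ => x) := by
  have := A.map_smul_univ (fun _ => s) (fun _ => x)
  simpa using this

lemma exists_kappa {j : ℕ} (hj : ((j + 1 : ℕ) : ℝ) ≤ p.toReal)
    (hodd : ((j + 1 : ℕ) : ℝ) = p.toReal → Odd (j + 1))
    (A : ContinuousMultilinearMap ℝ (fun _ : Fin (j + 1) => Lp p) ℝ) :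
    ∃ κ, Tendsto (fun n => A (fun _ => e p n)) uf (𝓝 κ) ∧ (-1 : ℝ) ^ (j + 1) * κ = -κ := by
  rcases lt_or_eq_of_le hj with h | h
  · exact ⟨0, (tendsto_form h A).mono_left uf_le, by simp⟩
  · obtain ⟨κ, hκ⟩ := exists_lim (a := fun n => A (fun _ => e p n)) (C := ‖A‖) (by
      intro n
      rw [← Real.norm_eq_abs]
      refine (A.le_opNorm _).trans ?_
      simp [norm_e])
    refine ⟨κ, hκ, ?_⟩
    rw [(hodd h).neg_one_pow]
    ring

lemma tendsto_taylor {H : Lp p → Y} (j : ℕ) (hj : ((j + 1 : ℕ) : ℝ) ≤ p.toReal) (y : Lp p)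
    (φ : Y →L[ℝ] ℝ) (s κ : ℝ)
    (hκ : Tendsto (fun n => φ (iteratedFDeriv ℝ (j + 1) H y (fun _ => e p n))) uf (𝓝 κ)) :
    Tendsto (fun n => φ (∑ k ∈ Finset.range (j + 1 + 1), ((k.factorial : ℝ))⁻¹ •
      iteratedFDeriv ℝ k H y (fun _ => s • e p n))) uf
      (𝓝 (φ (H y) + (((j + 1).factorial : ℝ))⁻¹ * s ^ (j + 1) * κ)) := by
  have h1 : ∀ n, φ (∑ k ∈ Finset.range (j + 1 + 1), ((k.factorial : ℝ))⁻¹ •
      iteratedFDeriv ℝ k H y (fun _ => s • e p n)) =
      (∑ k ∈ Finset.range j, (((k + 1).factorial : ℝ))⁻¹ * s ^ (k + 1) *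
        φ (iteratedFDeriv ℝ (k + 1) H y (fun _ => e p n))) + φ (H y) +
      (((j + 1).factorial : ℝ))⁻¹ * s ^ (j + 1) *
        φ (iteratedFDeriv ℝ (j + 1) H y (fun _ => e p n)) := by
    intro n
    rw [map_sum, Finset.sum_range_succ, Finset.sum_range_succ']
    congr 1
    · congr 1
      · refine Finset.sum_congr rfl fun k _ => ?_
        rw [form_smul, map_smul, map_smul, smul_eq_mul, smul_eq_mul, mul_assoc]
      · simp
    · rw [form_smul, map_smul, map_smul, smul_eq_mul, smul_eq_mul, mul_assoc]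
  simp only [h1]
  have h2 : Tendsto (fun n => ∑ k ∈ Finset.range j, (((k + 1).factorial : ℝ))⁻¹ * s ^ (k + 1) *
        φ (iteratedFDeriv ℝ (k + 1) H y (fun _ => e p n))) uf (𝓝 0) := by
    have h3 : ∀ k ∈ Finset.range j, Tendsto (fun n => (((k + 1).factorial : ℝ))⁻¹ * s ^ (k + 1) *
        φ (iteratedFDeriv ℝ (k + 1) H y (fun _ => e p n))) uf (𝓝 0) := by
      intro k hk
      rw [Finset.mem_range] at hk
      have h4 : ((k + 1 : ℕ) : ℝ) < p.toReal := by
        refine lt_of_lt_of_le ?_ hj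
        exact_mod_cast Nat.succ_lt_succ hk
      have h5 := (tendsto_form h4 (φ.compContinuousMultilinearMap
        (iteratedFDeriv ℝ (k + 1) H y))).mono_left uf_le
      have h6 := h5.const_mul ((((k + 1).factorial : ℝ))⁻¹ * s ^ (k + 1))
      rw [mul_zero] at h6
      exact h6
    have := tendsto_finsetSum _ h3
    simpa using this
  have h7 := (h2.add_const (φ (H y))).add
    (hκ.const_mul ((((j + 1).factorial : ℝ))⁻¹ * s ^ (j + 1)))
  rw [zero_add] at h7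
  exact h7

/-- Along the directions `e n - e m` a smooth function changes only to the order `ε ^ (N + 1)`,
`N = j + 1` being the integral part of `p`. -/
lemma small_change [CompleteSpace Y] {j : ℕ} (hj : ((j + 1 : ℕ) : ℝ) ≤ p.toReal)
    (hodd : ((j + 1 : ℕ) : ℝ) = p.toReal → Odd (j + 1)) {H : Lp p → Y}
    (hH : ContDiff ℝ (j + 1 + 1) H) (x : Lp p) :
    ∃ δ > 0, ∃ C > 0, ∀ y ∈ Metric.ball x δ, ∀ φ : Y →L[ℝ] ℝ, ‖φ‖ ≤ 1 → ∀ ε, 0 < ε → ε < δ →
      ∀ᶠ n in uf, ∀ᶠ m in uf,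
        |φ (H (y + ε • e p n - ε • e p m)) - φ (H y)| ≤ C * ε ^ (j + 1 + 1) := by
  obtain ⟨δ, hδ, C, hC, hb1, hb2⟩ := local_bound (N := j + 1) (by exact_mod_cast hH) x
  refine ⟨δ / 3, by positivity, 3 * C + 2, by positivity, fun y hy φ hφ ε hε hεδ => ?_⟩
  have hHN : ContDiff ℝ ((j + 1 : ℕ) + 1) H := by exact_mod_cast hH
  have hfac : 0 < (((j + 1).factorial : ℝ))⁻¹ := by positivity
  have hfac1 : (((j + 1).factorial : ℝ))⁻¹ ≤ 1 :=
    inv_le_one_of_one_le₀ (by exact_mod_cast (j + 1).factorial_pos)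
  -- one step
  have step : ∀ z ∈ Metric.ball x (2 * δ / 3), ∀ s : ℝ, |s| = ε → ∀ κ : ℝ,
      Tendsto (fun n => φ (iteratedFDeriv ℝ (j + 1) H z (fun _ => e p n))) uf (𝓝 κ) →
      ∀ᶠ n in uf, |φ (H (z + s • e p n)) -
        (φ (H z) + (((j + 1).factorial : ℝ))⁻¹ * s ^ (j + 1) * κ)| ≤ (C + 1) * ε ^ (j + 1 + 1) := by
    intro z hz s hs κ hκ
    have h1 := tendsto_taylor j hj z φ s κ hκ
    have h2 := (tendsto_iff_norm_sub_tendsto_zero.mp h1).eventually_lt_const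
      (show (0 : ℝ) < ε ^ (j + 1 + 1) by positivity)
    filter_upwards [h2] with n hn
    rw [Real.norm_eq_abs] at hn
    have h3 : ‖H (z + s • e p n) - ∑ k ∈ Finset.range (j + 1 + 1), ((k.factorial : ℝ))⁻¹ •
        iteratedFDeriv ℝ k H z (fun _ => s • e p n)‖ ≤ C * ‖s • e p n‖ ^ (j + 1 + 1) := by
      refine taylor_bound hHN fun t ht => hb1 _ ?_
      rw [Metric.mem_ball, dist_eq_norm] at hz ⊢
      have h4 : ‖t • s • e p n‖ ≤ ε := by
        rw [norm_smul, norm_smul, norm_e, mul_one, Real.norm_eq_abs, Real.norm_eq_abs, hs,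
          abs_of_nonneg ht.1]
        exact mul_le_of_le_one_left hε.le ht.2
      have h5 : z + t • s • e p n - x = (z - x) + t • s • e p n := by abel
      rw [h5]
      refine (norm_add_le _ _).trans_lt ?_
      linarith
    have h4 : ‖s • e p n‖ = ε := by
      rw [norm_smul, norm_e, mul_one, Real.norm_eq_abs, hs]
    rw [h4] at h3
    have h5 : |φ (H (z + s • e p n)) - φ (∑ k ∈ Finset.range (j + 1 + 1),
        ((k.factorial : ℝ))⁻¹ • iteratedFDeriv ℝ k H z (fun _ => s • e p n))| ≤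
        C * ε ^ (j + 1 + 1) := by
      rw [← map_sub, ← Real.norm_eq_abs]
      refine (φ.le_opNorm _).trans ?_
      calc ‖φ‖ * _ ≤ 1 * (C * ε ^ (j + 1 + 1)) := mul_le_mul hφ h3 (norm_nonneg _) zero_le_one
        _ = _ := one_mul _
    have h6 := abs_sub_le (φ (H (z + s • e p n))) (φ (∑ k ∈ Finset.range (j + 1 + 1),
        ((k.factorial : ℝ))⁻¹ • iteratedFDeriv ℝ k H z (fun _ => s • e p n)))
        (φ (H z) + (((j + 1).factorial : ℝ))⁻¹ * s ^ (j + 1) * κ)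
    linarith
  have hyball : y ∈ Metric.ball x (2 * δ / 3) :=
    Metric.ball_subset_ball (by linarith) hy
  obtain ⟨κ, hκ1, hκ2⟩ := exists_kappa hj hodd
    (φ.compContinuousMultilinearMap (iteratedFDeriv ℝ (j + 1) H y))
  have hstep1 := step y hyball ε (abs_of_pos hε) κ hκ1
  filter_upwards [hstep1] with n hn
  -- the second step
  set z : Lp p := y + ε • e p n with hz
  have hzy : ‖z - y‖ = ε := by
    rw [hz, add_sub_cancel_left, norm_smul, norm_e, mul_one, Real.norm_eq_abs, abs_of_pos hε]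
  have hzball : z ∈ Metric.ball x (2 * δ / 3) := by
    rw [Metric.mem_ball, dist_eq_norm] at hy ⊢
    have h1 : z - x = (z - y) + (y - x) := by abel
    rw [h1]
    refine (norm_add_le _ _).trans_lt ?_
    rw [hzy]
    linarith
  obtain ⟨κ', hκ'1, hκ'2⟩ := exists_kappa hj hodd
    (φ.compContinuousMultilinearMap (iteratedFDeriv ℝ (j + 1) H z))
  have hstep2 := step z hzball (-ε) (by rw [abs_neg, abs_of_pos hε]) κ' hκ'1
  -- the two limits are close
  have hclose : |κ - κ'| ≤ C * ε := by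
    have h1 : Tendsto (fun m => |φ (iteratedFDeriv ℝ (j + 1) H y (fun _ => e p m)) -
        φ (iteratedFDeriv ℝ (j + 1) H z (fun _ => e p m))|) uf (𝓝 |κ - κ'|) :=
      (hκ1.sub hκ'1).abs
    refine le_of_tendsto h1 (Eventually.of_forall fun m => ?_)
    rw [← map_sub, ← Real.norm_eq_abs]
    refine (φ.le_opNorm _).trans ?_
    have h2 : ‖iteratedFDeriv ℝ (j + 1) H y (fun _ => e p m) -
        iteratedFDeriv ℝ (j + 1) H z (fun _ => e p m)‖ ≤ C * ε := by
      rw [← _root_.sub_apply]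
      refine (ContinuousMultilinearMap.le_opNorm _ _).trans ?_
      simp only [norm_e, Finset.prod_const_one, mul_one]
      rw [← hzy, norm_sub_rev z y]
      exact hb2 _ (Metric.ball_subset_ball (by linarith) hyball) _
        (Metric.ball_subset_ball (by linarith) hzball)
    calc ‖φ‖ * _ ≤ 1 * (C * ε) := mul_le_mul hφ h2 (norm_nonneg _) zero_le_one
      _ = _ := one_mul _
  filter_upwards [hstep2] with m hm
  have h1 : y + ε • e p n - ε • e p m = z + (-ε) • e p m := by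
    rw [hz, neg_smul, sub_eq_add_neg]
  rw [h1]
  have h2 : (((j + 1).factorial : ℝ))⁻¹ * (-ε) ^ (j + 1) * κ' =
      -((((j + 1).factorial : ℝ))⁻¹ * ε ^ (j + 1) * κ') := by
    have h3 : (-ε) ^ (j + 1) = (-1) ^ (j + 1) * ε ^ (j + 1) := by
      rw [← mul_pow]; ring
    rw [h3]
    have h4 : (((j + 1).factorial : ℝ))⁻¹ * ((-1) ^ (j + 1) * ε ^ (j + 1)) * κ' =
        (((j + 1).factorial : ℝ))⁻¹ * ε ^ (j + 1) * ((-1) ^ (j + 1) * κ') := by ring
    rw [h4, hκ'2]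
    ring
  rw [h2] at hm
  have h5 : |(((j + 1).factorial : ℝ))⁻¹ * ε ^ (j + 1) * κ -
      (((j + 1).factorial : ℝ))⁻¹ * ε ^ (j + 1) * κ'| ≤ C * ε ^ (j + 1 + 1) := by
    rw [← mul_sub, abs_mul, abs_of_pos (by positivity)]
    calc (((j + 1).factorial : ℝ))⁻¹ * ε ^ (j + 1) * |κ - κ'|
        ≤ 1 * ε ^ (j + 1) * (C * ε) := by
          refine mul_le_mul (mul_le_mul_of_nonneg_right hfac1 (by positivity)) hclose
            (abs_nonneg _) (by positivity)
      _ = C * ε ^ (j + 1 + 1) := by ring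
  rw [abs_le] at hn hm h5 ⊢
  constructor <;> linarith [hn.1, hn.2, hm.1, hm.2, h5.1, h5.2]

/-! ### The diagonal functional and projections -/

lemma abs_apply_le (hp : p ≠ 0) (x : Lp p) (i : ℕ) : |x i| ≤ ‖x‖ := by
  rw [← Real.norm_eq_abs]
  exact lp.norm_apply_le_norm hp x i

lemma p_ne_zero : p ≠ 0 := (lt_of_lt_of_le zero_lt_one (Fact.out : 1 ≤ p)).ne'

lemma exists_diag : ∃ ℓ : (Lp p →L[ℝ] Lp p) →L[ℝ] ℝ, ∀ T : Lp p →L[ℝ] Lp p,
    Tendsto (fun n => (T (e p n)) n) uf (𝓝 (ℓ T)) := by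
  have hb : ∀ T : Lp p →L[ℝ] Lp p, ∀ n, |(T (e p n)) n| ≤ ‖T‖ := by
    intro T n
    refine (abs_apply_le p_ne_zero _ n).trans ((T.le_opNorm _).trans ?_)
    rw [norm_e, mul_one]
  choose L hL using fun T : Lp p →L[ℝ] Lp p => exists_lim (hb T)
  let ℓ₀ : (Lp p →L[ℝ] Lp p) →ₗ[ℝ] ℝ :=
    { toFun := L
      map_add' := fun S T => tendsto_nhds_unique (hL (S + T)) ((hL S).add (hL T))
      map_smul' := fun c T => tendsto_nhds_unique (hL (c • T)) ((hL T).const_mul c) }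
  refine ⟨ℓ₀.mkContinuous 1 fun T => ?_, hL⟩
  rw [one_mul]
  exact le_of_tendsto (hL T).norm (Eventually.of_forall fun n => hb T n)

/-- the projection onto the first `M` coordinates -/
noncomputable def proj₀ (M : ℕ) : Lp p →ₗ[ℝ] Lp p where
  toFun x := ∑ i ∈ Finset.range M, x i • e p i
  map_add' x y := by
    rw [← Finset.sum_add_distrib]
    refine Finset.sum_congr rfl fun i _ => ?_
    rw [coe_add, add_smul]
  map_smul' c x := by
    rw [Finset.smul_sum]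
    refine Finset.sum_congr rfl fun i _ => ?_
    rw [coe_smul, mul_smul]
    rfl

lemma norm_proj₀ (hp : 0 < p.toReal) (M : ℕ) (x : Lp p) :
    ‖proj₀ M x‖ ^ p.toReal = ∑ i ∈ Finset.range M, |x i| ^ p.toReal := by
  have h1 := lp.norm_sum_single (p := p) (E := fun _ : ℕ => ℝ) hp x (Finset.range M)
  have h2 : proj₀ M x = ∑ i ∈ Finset.range M, lp.single p i (x i) := by
    change ∑ i ∈ Finset.range M, x i • e p i = _
    refine Finset.sum_congr rfl fun i _ => ?_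
    unfold e
    rw [← lp.single_smul, smul_eq_mul, mul_one]
  rw [h2, h1]
  rfl

lemma norm_proj₀_le (hp : 0 < p.toReal) (M : ℕ) (x : Lp p) : ‖proj₀ M x‖ ≤ ‖x‖ := by
  rw [← Real.rpow_le_rpow_iff (norm_nonneg _) (norm_nonneg _) hp, norm_proj₀ hp]
  exact lp.sum_rpow_le_norm_rpow hp x _

/-- the continuous projection -/
noncomputable def proj (hp : 0 < p.toReal) (M : ℕ) : Lp p →L[ℝ] Lp p :=
  (proj₀ M).mkContinuous 1 (fun x => by rw [one_mul]; exact norm_proj₀_le hp M x)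

lemma proj_apply (hp : 0 < p.toReal) (M : ℕ) (x : Lp p) : proj hp M x = proj₀ M x := rfl

lemma norm_proj_le (hp : 0 < p.toReal) (M : ℕ) : ‖proj hp M‖ ≤ 1 := by
  refine ContinuousLinearMap.opNorm_le_bound _ zero_le_one fun x => ?_
  rw [one_mul, proj_apply]
  exact norm_proj₀_le hp M x

lemma exists_proj (hp : 0 < p.toReal) (M : ℕ) : ∃ P : Lp p →L[ℝ] Lp p, ‖P‖ ≤ 1 ∧
    ∀ x, ‖P x‖ ^ p.toReal = ∑ i ∈ Finset.range M, |x i| ^ p.toReal :=
  ⟨proj hp M, norm_proj_le hp M, fun x => by rw [proj_apply]; exact norm_proj₀ hp M x⟩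

lemma tendsto_coord (hp : 0 < p.toReal) (x : Lp p) : Tendsto (fun n => x n) atTop (𝓝 0) := by
  have h1 := (lp.hasSum_norm hp x).summable.tendsto_atTop_zero
  have h2 := h1.rpow_const (p := 1 / p.toReal) (Or.inr (by positivity))
  rw [Real.zero_rpow (by positivity)] at h2
  rw [tendsto_zero_iff_abs_tendsto_zero]
  refine h2.congr fun n => ?_
  rw [← Real.rpow_mul (norm_nonneg _), mul_one_div_cancel hp.ne', Real.rpow_one]
  rfl

/-- the off-diagonal entries of a bounded operator are small -/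
lemma off_diag (hp : 0 < p.toReal) (T : Lp p →L[ℝ] Lp p) {ε : ℝ} (hε : 0 < ε) :
    ∀ᶠ n in uf, ∀ᶠ m in uf, |(T (e p m)) n| ≤ ε := by
  by_contra hcon
  have h1 : ∀ᶠ n in uf, ¬ ∀ᶠ m in uf, |(T (e p m)) n| ≤ ε := by
    unfold uf at hcon ⊢
    exact Ultrafilter.eventually_not.mpr hcon
  have h2 : ∀ᶠ n in uf, ∀ᶠ m in uf, ε < |(T (e p m)) n| := by
    filter_upwards [h1] with n hn
    unfold uf at hn ⊢
    filter_upwards [Ultrafilter.eventually_not.mpr hn] with m hm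
    exact not_le.mp hm
  have hinf : {n | ∀ᶠ m in uf, ε < |(T (e p m)) n|}.Infinite := by
    intro hfin
    have h3 : {n | ∀ᶠ m in uf, ε < |(T (e p m)) n|}ᶜ ∈ uf := by
      unfold uf
      exact hfin.compl_mem_hyperfilter
    obtain ⟨n, hn1, hn2⟩ := (h2.and h3).exists
    exact hn2 hn1
  obtain ⟨K, hK⟩ := exists_nat_gt (‖T‖ ^ p.toReal / ε ^ p.toReal)
  obtain ⟨F, hF1, hF2⟩ := hinf.exists_subset_card_eq K
  have h4 : ∀ᶠ m in uf, ∀ n ∈ F, ε < |(T (e p m)) n| := by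
    rw [Filter.eventually_all_finset]
    exact fun n hn => hF1 hn
  obtain ⟨m, hm⟩ := h4.exists
  have h5 := lp.sum_rpow_le_norm_rpow hp (T (e p m)) F
  have h6 : (K : ℝ) * ε ^ p.toReal ≤ ∑ n ∈ F, ‖(T (e p m)) n‖ ^ p.toReal := by
    rw [← hF2, ← nsmul_eq_mul]
    refine Finset.card_nsmul_le_sum F _ _ fun n hn => ?_
    exact Real.rpow_le_rpow hε.le (hm n hn).le hp.le
  have h7 : ‖T (e p m)‖ ^ p.toReal ≤ ‖T‖ ^ p.toReal := by
    refine Real.rpow_le_rpow (norm_nonneg _) ((T.le_opNorm _).trans ?_) hp.le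
    rw [norm_e, mul_one]
  rw [div_lt_iff₀ (by positivity)] at hK
  linarith

/-! ### Extensions -/

lemma ext_dist (hp : 0 < p.toReal) {y y' : Lp p} (h : ∀ i, y i ≠ 0 → y' i = y i) :
    ‖y' - y‖ ^ p.toReal = ‖y'‖ ^ p.toReal - ‖y‖ ^ p.toReal := by
  have h1 := (lp.hasSum_norm hp y').sub (lp.hasSum_norm hp y)
  have h2 := lp.hasSum_norm hp (y' - y)
  refine h2.unique ((h1).congr_fun ?_)
  intro i
  rw [coe_sub]
  by_cases hi : y i = 0
  · rw [hi]
    simp [Real.zero_rpow hp.ne']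
  · rw [h i hi]
    simp [Real.zero_rpow hp.ne']

lemma norm_step (hp : 0 < p.toReal) {y : Lp p} {n m : ℕ} (hnm : m ≠ n) (hn : y n = 0)
    (hm : y m = 0) {ε : ℝ} (hε : 0 < ε) :
    ‖y + ε • e p n - ε • e p m‖ ^ p.toReal = ‖y‖ ^ p.toReal + 2 * ε ^ p.toReal := by
  have h1 := ((lp.hasSum_norm hp y).add (hasSum_ite_eq n (ε ^ p.toReal))).add
    (hasSum_ite_eq m (ε ^ p.toReal))
  have h2 := lp.hasSum_norm hp (y + ε • e p n - ε • e p m)
  have h3 : ‖y‖ ^ p.toReal + 2 * ε ^ p.toReal =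
      ‖y‖ ^ p.toReal + ε ^ p.toReal + ε ^ p.toReal := by ring
  rw [h3]
  refine h2.unique (h1.congr_fun ?_)
  intro i
  rw [coe_sub, coe_add, coe_smul, coe_smul]
  by_cases hi : i = n
  · subst hi
    rw [hn, e_self, e_ne hnm.symm, if_pos rfl, if_neg hnm.symm]
    simp [Real.zero_rpow hp.ne', abs_of_pos hε]
  · by_cases hi' : i = m
    · subst hi'
      rw [hm, e_self, e_ne hnm, if_pos rfl, if_neg hnm]
      simp [Real.zero_rpow hp.ne', abs_of_pos hε]
    · rw [e_ne hi, e_ne hi', if_neg hi, if_neg hi']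
      simp

lemma rpow_sub_le {q : ℝ} (hq : 1 ≤ q) {a b B s : ℝ} (hb : 0 ≤ b) (ha : 0 ≤ a) (haB : a ≤ B)
    (hs : 0 ≤ s) (hab : a - s ≤ b) : a ^ q - q * B ^ (q - 1) * s ≤ b ^ q := by
  have hB : 0 ≤ B := ha.trans haB
  rcases le_total a b with h | h
  · have h1 : a ^ q ≤ b ^ q := Real.rpow_le_rpow ha h (by linarith)
    have h2 : 0 ≤ q * B ^ (q - 1) * s := by positivity
    linarith
  rcases eq_or_lt_of_le ha with h0 | h0
  · subst h0
    have hb0 : b = 0 := le_antisymm h hb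
    subst hb0
    have h2 : 0 ≤ q * B ^ (q - 1) * s := by positivity
    linarith
  have h1 := one_add_mul_self_le_rpow_one_add (s := b / a - 1)
    (by have : 0 ≤ b / a := by positivity
        linarith) hq
  have h2 : 1 + (b / a - 1) = b / a := by ring
  rw [h2, Real.div_rpow hb ha] at h1
  have haq : 0 < a ^ q := Real.rpow_pos_of_pos h0 _
  rw [le_div_iff₀ haq] at h1
  have h3 : a ^ q = a ^ (q - 1) * a := by
    rw [← Real.rpow_add_one h0.ne']; congr 1; ring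
  have h4 : (1 + q * (b / a - 1)) * a ^ q = a ^ q - q * a ^ (q - 1) * (a - b) := by
    rw [h3]
    field_simp
    ring
  rw [h4] at h1
  have h5 : a ^ (q - 1) ≤ B ^ (q - 1) := Real.rpow_le_rpow ha haB (by linarith)
  have h6 : q * a ^ (q - 1) * (a - b) ≤ q * B ^ (q - 1) * s := by
    refine mul_le_mul (mul_le_mul_of_nonneg_left h5 (by linarith)) (by linarith) (by linarith)
      (by positivity)
  linarith

/-! ### The main step -/

/-- the states of the walk -/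
def States (H : Lp p → Lp p) (lam : Lp p → ℝ) (η c : ℝ) : Set (Lp p) :=
  {y | {i | y i ≠ 0}.Finite ∧ |lam y - 1| ≤ η * ‖y‖ ^ p.toReal ∧
    c * ‖y‖ ^ p.toReal ≤ ‖H y‖ ^ p.toReal}

lemma eventually_small {q : ℝ} {N : ℕ} (hN : q < N) {K c : ℝ} (hc : 0 < c) :
    ∀ᶠ ε in 𝓝[>] (0 : ℝ), K * ε ^ N ≤ c * ε ^ q := by
  have h1 : Tendsto (fun ε : ℝ => K * ε ^ ((N : ℝ) - q)) (𝓝[>] 0) (𝓝 (K * 0)) := by
    refine Tendsto.const_mul K ?_
    have h2 : Tendsto (fun ε : ℝ => ε ^ ((N : ℝ) - q)) (𝓝 0) (𝓝 (0 ^ ((N : ℝ) - q))) :=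
      (Real.continuousAt_rpow_const 0 _ (Or.inr (by linarith))).tendsto
    rw [Real.zero_rpow (by linarith : (N : ℝ) - q ≠ 0)] at h2
    exact h2.mono_left nhdsWithin_le_nhds
  rw [mul_zero] at h1
  filter_upwards [h1.eventually_lt_const hc, self_mem_nhdsWithin] with ε hε hε0
  rw [mem_Ioi] at hε0
  have h3 : ε ^ N = ε ^ ((N : ℝ) - q) * ε ^ q := by
    rw [← Real.rpow_add hε0, sub_add_cancel, Real.rpow_natCast]
  rw [h3, ← mul_assoc]
  exact mul_le_mul_of_nonneg_right hε.le (by positivity)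

lemma main_step {j : ℕ} (hj : ((j + 1 : ℕ) : ℝ) ≤ p.toReal) (hj' : p.toReal < (j + 2 : ℕ))
    (hodd : ((j + 1 : ℕ) : ℝ) = p.toReal → Odd (j + 1)) {H : Lp p → Lp p}
    (hH : ContDiff ℝ (j + 3 : ℕ) H) {B : ℝ} (hB : ∀ x, ‖H x‖ ≤ B)
    (ℓ : (Lp p →L[ℝ] Lp p) →L[ℝ] ℝ)
    (hℓ : ∀ T : Lp p →L[ℝ] Lp p, Tendsto (fun n => (T (e p n)) n) uf (𝓝 (ℓ T)))
    {η c : ℝ} (hη : 0 < η) (hc : 0 < c) (hc1 : 4 * c ≤ (1 / 4) ^ p.toReal)
    (hηc : η * B ^ p.toReal ≤ c / 2) (x : Lp p) :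
    ∃ δ > 0, ∃ τ > 0, ∀ y ∈ States H (fun y => ℓ (fderiv ℝ H y)) η c, dist y x < δ →
      ∃ y' ∈ States H (fun y => ℓ (fderiv ℝ H y)) η c, (∀ i, y i ≠ 0 → y' i = y i) ∧
        ‖y‖ ^ p.toReal + τ ≤ ‖y'‖ ^ p.toReal := by
  set q := p.toReal with hq
  have hq1 : 1 ≤ q := le_trans (by push_cast; linarith [(Nat.cast_nonneg j : (0 : ℝ) ≤ j)]) hj
  have hq0 : 0 < q := by linarith
  set lam : Lp p → ℝ := fun y => ℓ (fderiv ℝ H y) with hlam
  have hB0 : 0 ≤ B := (norm_nonneg _).trans (hB 0)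
  -- smoothness
  have hlamC : ContDiff ℝ (j + 1 + 1) lam := by
    refine ℓ.contDiff.comp (hH.fderiv_right ?_)
    norm_cast
  have hH1 : ContDiff ℝ (j + 1 + 1) H := hH.of_le (by norm_cast; omega)
  have hH2 : ContDiff ℝ ((1 : ℕ) + 1) H := hH.of_le (by norm_cast; omega)
  obtain ⟨δ₁, hδ₁, C₁, hC₁, hs1⟩ := small_change hj hodd hH1 x
  obtain ⟨δ₂, hδ₂, C₂, hC₂, hs2⟩ := small_change hj hodd hlamC x
  obtain ⟨δ₃, hδ₃, C₃, hC₃, hs3, -⟩ := local_bound hH2 x
  -- the choice of `ε`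
  have hK : 0 ≤ 1 + q * B ^ (q - 1) * C₁ := by positivity
  have ev1 : ∀ᶠ ε in 𝓝[>] (0 : ℝ), C₂ * ε ^ (j + 2) ≤ (2 * η) * ε ^ q :=
    eventually_small hj' (by positivity)
  have ev2 : ∀ᶠ ε in 𝓝[>] (0 : ℝ), (1 + q * B ^ (q - 1) * C₁) * ε ^ (j + 2) ≤
      (1 / 4 : ℝ) ^ q / 2 * ε ^ q := eventually_small hj' (by positivity)
  have ev3 : ∀ᶠ ε in 𝓝[>] (0 : ℝ), ε < min (min δ₁ δ₂) (min (δ₃ / 4) (1 / (4 * (4 * C₃ + 3)))) := by
    refine mem_nhdsWithin_of_mem_nhds (Iio_mem_nhds ?_)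
    refine lt_min (lt_min hδ₁ hδ₂) (lt_min (by positivity) (by positivity))
  have ev4 : ∀ᶠ ε in 𝓝[>] (0 : ℝ), 0 < ε := self_mem_nhdsWithin
  obtain ⟨ε, ⟨⟨h1, h2⟩, h3⟩, hε⟩ := (((ev1.and ev2).and ev3).and ev4).exists
  have hε1 : ε < δ₁ := h3.trans_le ((min_le_left _ _).trans (min_le_left _ _))
  have hε2 : ε < δ₂ := h3.trans_le ((min_le_left _ _).trans (min_le_right _ _))
  have hε3 : ε < δ₃ / 4 := h3.trans_le ((min_le_right _ _).trans (min_le_left _ _))
  have hε4 : (4 * C₃ + 3) * ε ≤ 1 / 4 := by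
    have := (h3.trans_le ((min_le_right _ _).trans (min_le_right _ _))).le
    rw [le_div_iff₀ (by positivity)] at this
    linarith
  refine ⟨min (min δ₁ δ₂) (δ₃ / 4), by positivity, 2 * ε ^ q, by positivity, ?_⟩
  rintro y ⟨hy1, hy2, hy3⟩ hyd
  have hyd1 : y ∈ Metric.ball x δ₁ := hyd.trans_le ((min_le_left _ _).trans (min_le_left _ _))
  have hyd2 : y ∈ Metric.ball x δ₂ := hyd.trans_le ((min_le_left _ _).trans (min_le_right _ _))
  have hyd3 : dist y x < δ₃ / 4 := hyd.trans_le (min_le_right _ _)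
  -- the derivative functional stays near `1`
  have hgy : η * ‖y‖ ^ q ≤ 1 / 2 := by
    have h4 : ‖H y‖ ^ q ≤ B ^ q := Real.rpow_le_rpow (norm_nonneg _) (hB y) hq0.le
    have h5 : c * (η * ‖y‖ ^ q) ≤ c * (1 / 2) := by
      calc c * (η * ‖y‖ ^ q) = η * (c * ‖y‖ ^ q) := by ring
        _ ≤ η * B ^ q := mul_le_mul_of_nonneg_left (hy3.trans h4) hη.le
        _ ≤ c * (1 / 2) := by linarith
    exact le_of_mul_le_mul_left h5 hc
  have hlamy : 1 / 2 ≤ lam y := by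
    have := (abs_le.mp (hy2.trans hgy)).1
    linarith
  -- the projection and the norming functional
  obtain ⟨M, hM⟩ : ∃ M, ‖H y‖ ^ q - ε ^ (j + 2) < ∑ i ∈ Finset.range M, ‖H y i‖ ^ q := by
    have h4 := (lp.hasSum_norm hq0 (H y)).tendsto_sum_nat
    have h5 : ‖H y‖ ^ q - ε ^ (j + 2) < ‖H y‖ ^ q := by
      have : 0 < ε ^ (j + 2) := by positivity
      linarith
    exact (h4.eventually_const_lt h5).exists
  obtain ⟨P, hP1, hP2⟩ := exists_proj (p := p) hq0 M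
  obtain ⟨φ₀, hφ₀1, hφ₀2⟩ := exists_dual_vector'' ℝ (P (H y))
  set φ : Lp p →L[ℝ] ℝ := φ₀.comp P with hφ
  have hφn : ‖φ‖ ≤ 1 := (φ₀.opNorm_comp_le P).trans (mul_le_one₀ hφ₀1 (norm_nonneg _) hP1)
  have hφH : φ (H y) = ‖P (H y)‖ := by
    rw [hφ, ContinuousLinearMap.comp_apply, hφ₀2]
    rfl
  have hφle : ∀ z, φ z ≤ ‖P z‖ := by
    intro z
    rw [hφ, ContinuousLinearMap.comp_apply]
    refine (le_abs_self _).trans ?_
    rw [← Real.norm_eq_abs]
    refine (φ₀.le_opNorm _).trans ?_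
    exact mul_le_of_le_one_left (norm_nonneg _) hφ₀1
  -- conditions on `n`
  have en1 := hs1 y hyd1 φ hφn ε hε hε1
  have en2 := hs2 y hyd2 (ContinuousLinearMap.id ℝ ℝ) ContinuousLinearMap.norm_id_le ε hε hε2
  have en3 : ∀ᶠ n in uf, n ∉ {i | y i ≠ 0} := by
    have : {i | y i ≠ 0}ᶜ ∈ uf := by
      unfold uf
      exact hy1.compl_mem_hyperfilter
    exact this
  have en4 : ∀ᶠ n in uf, M ≤ n := uf_le (eventually_ge_atTop M)
  have en5 : ∀ᶠ n in uf, |H y n| < ε ^ 2 := by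
    have h4 := ((tendsto_coord hq0 (H y)).mono_left uf_le).abs
    rw [abs_zero] at h4
    exact h4.eventually_lt_const (by positivity)
  have en6 : ∀ᶠ n in uf, |(fderiv ℝ H y (e p n)) n - lam y| < ε := by
    have h4 := (tendsto_iff_norm_sub_tendsto_zero.mp (hℓ (fderiv ℝ H y))).eventually_lt_const hε
    filter_upwards [h4] with n hn
    rwa [Real.norm_eq_abs] at hn
  have en7 := off_diag hq0 (fderiv ℝ H y) hε
  obtain ⟨n, ⟨⟨⟨⟨⟨⟨hn1, hn2⟩, hn3⟩, hn4⟩, hn5⟩, hn6⟩, hn7⟩⟩ :=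
    ((((((en1.and en2).and en3).and en4).and en5).and en6).and en7).exists
  have em : ∀ᶠ m in uf, m ≠ n := uf_le (eventually_ne_atTop n)
  obtain ⟨m, ⟨⟨⟨⟨hm1, hm2⟩, hm3⟩, hm4⟩, hm5⟩⟩ :=
    ((((hn1.and hn2).and en3).and hn7).and em).exists
  have hyn : y n = 0 := by simpa using hn3
  have hym : y m = 0 := by simpa using hm3
  have hstep := norm_step hq0 hm5 hyn hym hε
  set y' : Lp p := y + ε • e p n - ε • e p m with hy'
  have hext : ∀ i, y i ≠ 0 → y' i = y i := by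
    intro i hi
    have h4 : i ≠ n := fun h => hi (h ▸ hyn)
    have h5 : i ≠ m := fun h => hi (h ▸ hym)
    rw [hy', coe_sub, coe_add, coe_smul, coe_smul, e_ne h4, e_ne h5]
    ring
  -- the size of the `n`-th coordinate of `H y'`
  set v : Lp p := ε • e p n - ε • e p m with hv
  have hyv : y' = y + v := by rw [hy', hv]; abel
  have hvn : ‖v‖ ≤ 2 * ε := by
    rw [hv]
    refine (norm_sub_le _ _).trans ?_
    rw [norm_smul, norm_smul, norm_e, norm_e, Real.norm_eq_abs, abs_of_pos hε]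
    linarith
  have htay : ‖H y' - H y - fderiv ℝ H y v‖ ≤ C₃ * (2 * ε) ^ 2 := by
    have h4 := taylor_bound (C := C₃) hH2 (y := y) (h := v) (fun t ht => hs3 _ (by
      rw [Metric.mem_ball, dist_eq_norm]
      rw [dist_eq_norm] at hyd3
      have h5 : y + t • v - x = (y - x) + t • v := by abel
      rw [h5]
      refine (norm_add_le _ _).trans_lt ?_
      have h6 : ‖t • v‖ ≤ 2 * ε := by
        rw [norm_smul, Real.norm_eq_abs, abs_of_nonneg ht.1]
        exact (mul_le_of_le_one_left (norm_nonneg _) ht.2).trans hvn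
      linarith))
    have h7 : ∑ k ∈ Finset.range (1 + 1), ((k.factorial : ℝ))⁻¹ •
        iteratedFDeriv ℝ k H y (fun _ => v) = H y + fderiv ℝ H y v := by
      rw [Finset.sum_range_succ, Finset.sum_range_one]
      simp [iteratedFDeriv_one_apply]
    rw [h7, ← hyv, ← sub_sub] at h4
    refine h4.trans (mul_le_mul_of_nonneg_left ?_ hC₃.le)
    exact pow_le_pow_left₀ (norm_nonneg _) hvn 2
  have hcoord : ε / 4 ≤ |H y' n| := by
    have h4 : |(H y' - H y - fderiv ℝ H y v) n| ≤ C₃ * (2 * ε) ^ 2 :=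
      (abs_apply_le p_ne_zero _ n).trans htay
    have h5 : (H y' - H y - fderiv ℝ H y v) n = H y' n - H y n -
        (ε * (fderiv ℝ H y (e p n)) n - ε * (fderiv ℝ H y (e p m)) n) := by
      rw [coe_sub, coe_sub, hv, map_sub, map_smul, map_smul, coe_sub, coe_smul, coe_smul]
    rw [h5] at h4
    have h6 := abs_le.mp h4
    have h7 := abs_lt.mp hn5
    have h8 := abs_lt.mp hn6
    have h9 := abs_le.mp hm4
    have h10 : ε * (lam y - ε) ≤ ε * (fderiv ℝ H y (e p n)) n :=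
      mul_le_mul_of_nonneg_left (by linarith [h8.1]) hε.le
    have h11 : ε * (fderiv ℝ H y (e p m)) n ≤ ε * ε :=
      mul_le_mul_of_nonneg_left h9.2 hε.le
    have h12 : ε * (1 / 2) ≤ ε * lam y := mul_le_mul_of_nonneg_left hlamy hε.le
    have h13 : ε * ((4 * C₃ + 3) * ε) ≤ ε * (1 / 4) := mul_le_mul_of_nonneg_left hε4 hε.le
    refine le_trans ?_ (le_abs_self _)
    nlinarith [h6.1, h7.1]
  -- the growth of the norm of `H`
  have hproj : ‖P (H y)‖ - C₁ * ε ^ (j + 2) ≤ ‖P (H y')‖ := by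
    have h4 := (abs_le.mp hm1).1
    have h5 := hφle (H y')
    rw [hφH] at h4
    linarith
  have hPB : ‖P (H y)‖ ≤ B := by
    refine (P.le_opNorm _).trans ?_
    exact (mul_le_of_le_one_left (norm_nonneg _) hP1).trans (hB y)
  have hgrow1 := rpow_sub_le hq1 (norm_nonneg _) (norm_nonneg _) hPB
    (by positivity : 0 ≤ C₁ * ε ^ (j + 2)) hproj
  have hgrow2 : ‖P (H y')‖ ^ q + (ε / 4) ^ q ≤ ‖H y'‖ ^ q := by
    have h4 := lp.sum_rpow_le_norm_rpow hq0 (H y') (insert n (Finset.range M))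
    rw [Finset.sum_insert (by rw [Finset.mem_range]; omega)] at h4
    rw [hP2]
    have h5 : (ε / 4) ^ q ≤ ‖H y' n‖ ^ q := Real.rpow_le_rpow (by positivity) hcoord hq0.le
    have h6 : ∑ i ∈ Finset.range M, |H y' i| ^ p.toReal =
      ∑ i ∈ Finset.range M, ‖H y' i‖ ^ p.toReal := rfl
    rw [h6]
    linarith
  have hgrow3 : ‖H y‖ ^ q - ε ^ (j + 2) ≤ ‖P (H y)‖ ^ q := by
    rw [hP2]
    exact hM.le
  have hfinal : ‖H y‖ ^ q + 2 * c * ε ^ q ≤ ‖H y'‖ ^ q := by
    have h4 : (ε / 4) ^ q = (1 / 4) ^ q * ε ^ q := by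
      rw [← Real.mul_rpow (by norm_num) hε.le]
      congr 1
      ring
    have h5 : 4 * c * ε ^ q ≤ (1 / 4) ^ q * ε ^ q :=
      mul_le_mul_of_nonneg_right hc1 (by positivity)
    rw [h4] at hgrow2
    have h6 : q * B ^ (q - 1) * (C₁ * ε ^ (j + 2)) = q * B ^ (q - 1) * C₁ * ε ^ (j + 2) := by ring
    have h7 : (1 + q * B ^ (q - 1) * C₁) * ε ^ (j + 2) =
      ε ^ (j + 2) + q * B ^ (q - 1) * C₁ * ε ^ (j + 2) := by ring
    rw [h6] at hgrow1
    rw [h7] at h2
    linarith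
  refine ⟨y', ⟨?_, ?_, ?_⟩, hext, hstep.ge⟩
  · refine (hy1.union (Set.toFinite {n, m})).subset ?_
    intro i hi
    by_contra hcon
    rw [mem_union, not_or] at hcon
    obtain ⟨hc1, hc2⟩ := hcon
    simp only [mem_insert_iff, mem_singleton_iff, not_or] at hc2
    apply hi
    have h4 : y i = 0 := by simpa using hc1
    rw [hy', coe_sub, coe_add, coe_smul, coe_smul, e_ne hc2.1, e_ne hc2.2, h4]
    ring
  · have h4 : |lam y' - lam y| ≤ C₂ * ε ^ (j + 2) := hm2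
    have h5 := abs_sub_le (lam y') (lam y) 1
    rw [hstep]
    have h6 : η * (‖y‖ ^ q + 2 * ε ^ q) = η * ‖y‖ ^ q + 2 * η * ε ^ q := by ring
    rw [h6]
    linarith
  · rw [hstep]
    have h6 : c * (‖y‖ ^ q + 2 * ε ^ q) = c * ‖y‖ ^ q + 2 * c * ε ^ q := by ring
    rw [h6]
    linarith

end multi

/-- **Theorem.** If `1 ≤ p < ∞` is not an even integer then `ℓ_p` has no blid map of class
`C^q` for `q ≥ ⌊p⌋ + 2`; in particular it has no `C^∞` blid map. -/
theorem result (p : ℝ≥0∞) [Fact (1 ≤ p)] (hp : p ≠ ⊤) (heven : ∀ k : ℕ, p ≠ 2 * k)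
    (q : WithTop ℕ∞) (hq : ((⌊p.toReal⌋₊ + 2 : ℕ) : WithTop ℕ∞) ≤ q) :
    ¬ HasBlid q (lp (fun _ : ℕ => ℝ) p) := by
  rintro ⟨H, hH, ⟨B, hB⟩, hid⟩
  have hp1 : 1 ≤ p.toReal := by
    have := ENNReal.toReal_mono hp (Fact.out : 1 ≤ p)
    simpa using this
  have hp0 : 0 < p.toReal := by linarith
  obtain ⟨j, hj⟩ : ∃ j, ⌊p.toReal⌋₊ = j + 1 := by
    refine Nat.exists_eq_succ_of_ne_zero ?_
    rw [← Nat.pos_iff_ne_zero, Nat.floor_pos]
    exact hp1
  have hj1 : ((j + 1 : ℕ) : ℝ) ≤ p.toReal := by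
    rw [← hj]; exact Nat.floor_le hp0.le
  have hj2 : p.toReal < (j + 2 : ℕ) := by
    have := Nat.lt_floor_add_one p.toReal
    rw [hj] at this
    push_cast at this ⊢
    linarith
  have hodd : ((j + 1 : ℕ) : ℝ) = p.toReal → Odd (j + 1) := by
    intro h
    rw [← Nat.not_even_iff_odd]
    rintro ⟨k, hk⟩
    refine heven k ?_
    rw [← ENNReal.ofReal_toReal hp, ← h, hk, ENNReal.ofReal_natCast]
    push_cast
    ring
  obtain ⟨ℓ, hℓ⟩ := exists_diag (p := p)
  have hB0 : 0 ≤ B := (norm_nonneg _).trans (hB 0)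
  set c : ℝ := (1 / 4) ^ p.toReal / 4 with hc
  have hc0 : 0 < c := by positivity
  set η : ℝ := c / (2 * (B ^ p.toReal + 1)) with hη
  have hBp : 0 ≤ B ^ p.toReal := by positivity
  have hη0 : 0 < η := by positivity
  refine greedy (States H (fun y => ℓ (fderiv ℝ H y)) η c)
    (fun y y' => ∀ i, y i ≠ 0 → y' i = y i) (fun a i _ => rfl)
    (fun {a b d} h1 h2 i hi => by rw [h2 i (by rw [h1 i hi]; exact hi), h1 i hi])
    (fun y => ‖y‖ ^ p.toReal) (B := B ^ p.toReal / c) hp0 ?_ ?_ ?_ 0 ?_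
  · rintro y ⟨-, -, hy⟩
    rw [le_div_iff₀ hc0, mul_comm]
    exact hy.trans (Real.rpow_le_rpow (norm_nonneg _) (hB y) hp0.le)
  · intro y _ y' _ h
    rw [dist_comm, dist_eq_norm]
    exact (ext_dist hp0 h).le
  · intro x
    have hηc : η * B ^ p.toReal ≤ c / 2 := by
      rw [hη, div_mul_eq_mul_div, div_le_div_iff₀ (by positivity) (by norm_num)]
      nlinarith
    obtain ⟨δ, hδ, τ, hτ, h⟩ := main_step hj1 hj2 hodd (hH.of_le (by rw [hj] at hq; exact hq)) hB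
      ℓ hℓ hη0 hc0 (by rw [hc]; linarith) hηc x
    exact ⟨δ, hδ, τ, hτ, h⟩
  · refine ⟨?_, ?_, ?_⟩
    · have : {i | (0 : lp (fun _ : ℕ => ℝ) p) i ≠ 0} = ∅ := by
        ext i; simp
      rw [this]
      exact Set.finite_empty
    · have h1 : fderiv ℝ H 0 = ContinuousLinearMap.id ℝ _ := by
        have h2 : H =ᶠ[𝓝 0] id := hid
        rw [h2.fderiv_eq, fderiv_id]
      have h3 : ℓ (fderiv ℝ H 0) = 1 := by
        refine tendsto_nhds_unique (hℓ _) ?_
        rw [h1]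
        have h4 : (fun n => (ContinuousLinearMap.id ℝ (Lp p) (e p n)) n) = fun _ => (1 : ℝ) := by
          funext n
          exact e_self n
        rw [h4]
        exact tendsto_const_nhds
      simp only [h3]
      rw [sub_self, abs_zero]
      positivity
    · rw [norm_zero, Real.zero_rpow hp0.ne', mul_zero]
      positivity

end Pool.Agent.Results.MP_94b2f9_an.NoBlidLp
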